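import Pool.Agent.Lib.MP_305fdd_al.F8.StmHN

/-!
# MP_305fdd_al, arithmetic once-punctured torus bundles: the groups `N2A α c`

`GA α = F ⋊ ℤ` (`StmHN.lean`), `t = tA α` acts by `α`. `iot` inverts the two generators of `F`. If
`iot ∘ α ∘ iot` is `α` followed by the conjugation by `c`, and `iot c = c⁻¹`, then `GA α` has the involution
`κ`: `w ↦ iot w`, `t ↦ c t`, and `N2A α c = GA α ⋊ C₂ = (C₂ * C₂ * C₂) ⋊ ℤ`.
-/

set_option autoImplicit false

namespace Pool.Agent.F8.AB

open Pool.Agent.MP_305fdd_al Pool.Agent.Lib.MP_305fdd_al Pool.Agent.F2X Pool.Agent.F8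
  Pool.Agent.F8.HN
open scoped QuadraticAlgebra

/-! ### The universal property of `GA α` -/

section liftA

variable {Q : Type} [Group Q] {α : MulAut F}

theorem liftA_aux (f : F →* Q) (s : Q) (h : ∀ w, f (α w) = s * f w * s⁻¹)
    (g : Multiplicative ℤ) : f.comp (zpowersHom (MulAut F) α g).toMonoidHom =
      (MulAut.conj (zpowersHom Q s g)).toMonoidHom.comp f := by
  have hi : ∀ w : F, f (α⁻¹ w) = s⁻¹ * f w * s := by
    intro w
    have := h (α⁻¹ w)
    rw [MulAut.apply_inv_self] at this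
    rw [this]; group
  have hz : ∀ (n : ℤ) (w : F), f ((α ^ n) w) = s ^ n * f w * (s ^ n)⁻¹ := by
    intro n
    induction n using Int.induction_on with
    | zero => intro w; simp
    | succ i ih =>
      intro w
      rw [zpow_add_one, MulAut.mul_apply, ih, h, zpow_add_one]; group
    | pred i ih =>
      intro w
      rw [zpow_sub_one, MulAut.mul_apply, ih, hi, zpow_sub_one]; group
  ext w
  exact hz (Multiplicative.toAdd g) _

/-- the universal property of `GA α` -/
def liftA (f : F →* Q) (s : Q) (h : ∀ w, f (α w) = s * f w * s⁻¹) : GA α →* Q :=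
  SemidirectProduct.lift f (zpowersHom Q s) (liftA_aux f s h)

theorem liftA_iA (f : F →* Q) (s : Q) (h : ∀ w, f (α w) = s * f w * s⁻¹) (w : F) :
    liftA f s h (iA α w) = f w := SemidirectProduct.lift_inl _ _ _ w

theorem liftA_tA (f : F →* Q) (s : Q) (h : ∀ w, f (α w) = s * f w * s⁻¹) :
    liftA f s h (tA α) = s := by
  unfold tA liftA
  rw [SemidirectProduct.lift_inr, zpowersHom_apply]; simp

/-- homomorphisms on `GA α` are determined by their values on `F` and `t` -/
theorem homA_ext {f g : GA α →* Q} (h : ∀ w, f (iA α w) = g (iA α w)) (ht : f (tA α) = g (tA α)) :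
    f = g := by
  ext x
  obtain ⟨w, n, rfl⟩ := GA_cases α x
  rw [map_mul, map_mul, map_zpow, map_zpow, h, ht]

/-- homomorphisms on `GA α` are determined by their values on `ga`, `gb` and `t` -/
theorem homA_ext' {f g : GA α →* Q} (ha : f (iA α ga) = g (iA α ga))
    (hb : f (iA α gb) = g (iA α gb)) (ht : f (tA α) = g (tA α)) : f = g := by
  apply homA_ext _ ht
  have : f.comp (iA α) = g.comp (iA α) := hom_ext ha hb
  exact fun w => DFunLike.congr_fun this w

/-- compatibility with `α` on the generators -/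
theorem compat {f : F →* Q} {s : Q} (ha : f (α ga) = s * f ga * s⁻¹)
    (hb : f (α gb) = s * f gb * s⁻¹) (w : F) : f (α w) = s * f w * s⁻¹ := by
  have h : f.comp α.toMonoidHom = (MulAut.conj s).toMonoidHom.comp f := by
    apply hom_ext
    · exact ha
    · exact hb
  exact DFunLike.congr_fun h w

end liftA

/-- powers of `t` -/
theorem tA_pow_conj (α : MulAut F) (k : ℕ) (w : F) :
    tA α ^ k * iA α w * (tA α ^ k)⁻¹ = iA α ((α ^ k) w) := by
  induction k generalizing w with
  | zero => simp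
  | succ k ih =>
    have : tA α ^ (k + 1) * iA α w * (tA α ^ (k + 1))⁻¹ =
        tA α ^ k * (tA α * iA α w * (tA α)⁻¹) * (tA α ^ k)⁻¹ := by rw [pow_succ]; group
    rw [this, tA_conj, ih, ← MulAut.mul_apply, ← pow_succ]

/-- the homomorphism `GA (α ^ n) → GA α`, `t ↦ t ^ n` -/
def toA (α : MulAut F) (n : ℕ) : GA (α ^ n) →* GA α :=
  liftA (iA α) (tA α ^ n) fun w => (tA_pow_conj α n w).symm

theorem toA_iA (α : MulAut F) (n : ℕ) (w : F) : toA α n (iA (α ^ n) w) = iA α w :=
  liftA_iA _ _ _ _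
theorem toA_tA (α : MulAut F) (n : ℕ) : toA α n (tA (α ^ n)) = tA α ^ n := liftA_tA _ _ _

/-! ### The involution -/

/-- the automorphism of `F` which inverts the two generators -/
def iot : MulAut F := mkA ga⁻¹ gb⁻¹ ga⁻¹ gb⁻¹ (by simp) (by simp) (by simp) (by simp)

theorem iot_ga : iot ga = ga⁻¹ := by unfold iot; rw [mkA_apply, lf_ga]
theorem iot_gb : iot gb = gb⁻¹ := by unfold iot; rw [mkA_apply, lf_gb]

theorem iot_iot (w : F) : iot (iot w) = w := by
  have h : (iot * iot : MulAut F).toMonoidHom = MonoidHom.id F := by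
    apply hom_ext
    · show iot (iot ga) = ga
      rw [iot_ga, map_inv, iot_ga, inv_inv]
    · show iot (iot gb) = gb
      rw [iot_gb, map_inv, iot_gb, inv_inv]
  exact DFunLike.congr_fun h w

/-- the condition on `c` -/
structure Kp (α : MulAut F) (c : F) : Prop where
  /-- `ga` -/
  a : iot (α ga⁻¹) = c * α ga * c⁻¹
  /-- `gb` -/
  b : iot (α gb⁻¹) = c * α gb * c⁻¹
  /-- `c` -/
  c : iot c * c = 1

variable {α : MulAut F} {c : F}

theorem Kp.all (h : Kp α c) (w : F) : iot (α (iot w)) = c * α w * c⁻¹ := by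
  have e : (iot * α * iot : MulAut F).toMonoidHom =
      (MulAut.conj c).toMonoidHom.comp α.toMonoidHom := by
    apply hom_ext
    · show iot (α (iot ga)) = c * α ga * c⁻¹
      rw [iot_ga]; exact h.a
    · show iot (α (iot gb)) = c * α gb * c⁻¹
      rw [iot_gb]; exact h.b
  exact DFunLike.congr_fun e w

/-- `κ` as an endomorphism -/
def kap0 (h : Kp α c) : GA α →* GA α :=
  liftA ((iA α).comp iot.toMonoidHom) (iA α c * tA α) (by
    intro w
    show iA α (iot (α w)) = iA α c * tA α * iA α (iot w) * (iA α c * tA α)⁻¹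
    have h1 : iA α c * tA α * iA α (iot w) * (iA α c * tA α)⁻¹ =
        iA α c * (tA α * iA α (iot w) * (tA α)⁻¹) * (iA α c)⁻¹ := by group
    rw [h1, tA_conj, ← map_inv, ← map_mul, ← map_mul, ← h.all, iot_iot])

theorem kap0_iA (h : Kp α c) (w : F) : kap0 h (iA α w) = iA α (iot w) := liftA_iA _ _ _ _
theorem kap0_tA (h : Kp α c) : kap0 h (tA α) = iA α c * tA α := liftA_tA _ _ _

theorem kap0_kap0 (h : Kp α c) : (kap0 h).comp (kap0 h) = MonoidHom.id (GA α) := by
  apply homA_ext
  · intro w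
    show kap0 h (kap0 h (iA α w)) = iA α w
    rw [kap0_iA, kap0_iA, iot_iot]
  · show kap0 h (kap0 h (tA α)) = tA α
    rw [kap0_tA, map_mul, kap0_iA, kap0_tA, ← mul_assoc, ← map_mul, h.c, map_one, one_mul]

/-- the automorphism `κ` -/
def kap (h : Kp α c) : MulAut (GA α) :=
  MonoidHom.toMulEquiv (kap0 h) (kap0 h) (kap0_kap0 h) (kap0_kap0 h)

theorem kap_apply (h : Kp α c) (g : GA α) : kap h g = kap0 h g := rfl

theorem kap_mul_kap (h : Kp α c) : kap h * kap h = 1 := by
  ext1 g
  exact DFunLike.congr_fun (kap0_kap0 h) g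

/-- the action of `C₂` -/
def kapZ (h : Kp α c) : Multiplicative (ZMod 2) →* MulAut (GA α) where
  toFun e := if Multiplicative.toAdd e = 0 then 1 else kap h
  map_one' := by simp
  map_mul' x y := by
    rw [toAdd_mul]
    generalize Multiplicative.toAdd x = i
    generalize Multiplicative.toAdd y = j
    fin_cases i <;> fin_cases j
    · rfl
    · exact (one_mul _).symm
    · exact (mul_one _).symm
    · exact (kap_mul_kap h).symm

/-- `N2A h = GA α ⋊ C₂ = (C₂ * C₂ * C₂) ⋊ ℤ` -/
abbrev N2A (h : Kp α c) : Type := GA α ⋊[kapZ h] Multiplicative (ZMod 2)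

/-- the inclusion of `GA α` -/
abbrev iK (h : Kp α c) : GA α →* N2A h := SemidirectProduct.inl

/-- the involution `k` -/
def kk (h : Kp α c) : N2A h := SemidirectProduct.inr (Multiplicative.ofAdd 1)

theorem kk_sq (h : Kp α c) : kk h * kk h = 1 := by
  unfold kk; rw [← map_mul]; rfl

theorem kk_conj (h : Kp α c) (g : GA α) : kk h * iK h g * (kk h)⁻¹ = iK h (kap h g) := by
  unfold kk
  rw [← map_inv, ← SemidirectProduct.inl_aut]
  rfl

theorem nA_kap (h : Kp α c) (g : GA α) : nA α (kap h g) = nA α g := by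
  have e : (nA α).comp (kap0 h) = nA α := by
    apply homA_ext
    · intro w
      show nA α (kap0 h (iA α w)) = nA α (iA α w)
      rw [kap0_iA, nA_iA, nA_iA]
    · show nA α (kap0 h (tA α)) = nA α (tA α)
      rw [kap0_tA, map_mul, nA_iA, one_mul]
  exact DFunLike.congr_fun e g

theorem nA_kapZ (h : Kp α c) (e : Multiplicative (ZMod 2)) (g : GA α) :
    nA α (kapZ h e g) = nA α g := by
  show nA α ((if Multiplicative.toAdd e = 0 then 1 else kap h : MulAut (GA α)) g) = nA α g
  split_ifs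
  · rfl
  · exact nA_kap h g

/-- the exponent of `t` -/
def nuK (h : Kp α c) : N2A h →* Multiplicative ℤ := SemidirectProduct.lift (nA α) 1 (by
  intro e
  ext1 g
  show nA α (kapZ h e g) = 1 * nA α g * 1⁻¹
  rw [nA_kapZ, one_mul, inv_one, mul_one])

theorem nuK_iK (h : Kp α c) (g : GA α) : nuK h (iK h g) = nA α g :=
  SemidirectProduct.lift_inl _ _ _ g
theorem nuK_kk (h : Kp α c) : nuK h (kk h) = 1 := SemidirectProduct.lift_inr _ _ _ _

/-- the parity -/
def epK (h : Kp α c) : N2A h →* Multiplicative (ZMod 2) := SemidirectProduct.rightHom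

theorem epK_iK (h : Kp α c) (g : GA α) : epK h (iK h g) = 1 := rfl
theorem epK_kk (h : Kp α c) : epK h (kk h) = Multiplicative.ofAdd 1 := rfl

/-- an element of `N2A h` with trivial `epK` and `nuK` lies in `F` -/
theorem mem_F (h : Kp α c) (x : N2A h) (h1 : epK h x = 1) (h2 : nuK h x = 1) :
    ∃ w : F, x = iK h (iA α w) := by
  obtain ⟨⟨w, n⟩, e⟩ := x
  have he : e = 1 := h1
  subst he
  have hx : (⟨⟨w, n⟩, 1⟩ : N2A h) = iK h ⟨w, n⟩ := rfl
  rw [hx, nuK_iK] at h2
  have hn : n = 1 := h2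
  subst hn
  exact ⟨w, rfl⟩

/-- the elements of `N2A h` -/
theorem K_cases (h : Kp α c) (x : N2A h) :
    ∃ g : GA α, x = iK h g ∨ x = iK h g * kk h := by
  have he : x.right = 1 ∨ x.right = Multiplicative.ofAdd 1 := by
    have : ∀ i : ZMod 2, i = 0 ∨ i = 1 := by decide
    exact this x.right
  refine ⟨x.left, ?_⟩
  have e := SemidirectProduct.inl_left_mul_inr_right x
  rcases he with he | he
  · left
    rw [he, map_one, mul_one] at e
    exact e.symm
  · right
    rw [he] at e
    exact e.symm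

/-- homomorphisms on `N2A h` -/
theorem homK_ext {Q : Type} [Group Q] (h : Kp α c) {f g : N2A h →* Q}
    (ha : f (iK h (iA α ga)) = g (iK h (iA α ga))) (hb : f (iK h (iA α gb)) = g (iK h (iA α gb)))
    (ht : f (iK h (tA α)) = g (iK h (tA α))) (hk : f (kk h) = g (kk h)) : f = g := by
  have e : f.comp (iK h) = g.comp (iK h) := homA_ext' ha hb ht
  ext x
  obtain ⟨y, rfl | rfl⟩ := K_cases h x
  · exact DFunLike.congr_fun e y
  · rw [map_mul, map_mul, hk]
    congr 1
    exact DFunLike.congr_fun e y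

section liftK

variable {Q : Type} [Group Q] (h : Kp α c) (f : GA α →* Q) (k : Q)

/-- the homomorphism `C₂ → Q` given by an involution -/
def kZ (hk : k * k = 1) : Multiplicative (ZMod 2) →* Q where
  toFun e := if Multiplicative.toAdd e = 0 then 1 else k
  map_one' := by simp
  map_mul' x y := by
    rw [toAdd_mul]
    generalize Multiplicative.toAdd x = i
    generalize Multiplicative.toAdd y = j
    fin_cases i <;> fin_cases j
    · exact (one_mul _).symm
    · exact (one_mul _).symm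
    · exact (mul_one _).symm
    · exact hk.symm

theorem liftK_aux (hk : k * k = 1) (ha : k * f (iA α ga) = (f (iA α ga))⁻¹ * k)
    (hb : k * f (iA α gb) = (f (iA α gb))⁻¹ * k)
    (ht : k * f (tA α) = f (iA α c) * f (tA α) * k) (e : Multiplicative (ZMod 2)) :
    f.comp (kapZ h e).toMonoidHom = (MulAut.conj (kZ k hk e)).toMonoidHom.comp f := by
  have he : e = Multiplicative.ofAdd 0 ∨ e = Multiplicative.ofAdd 1 := by
    have : ∀ i : ZMod 2, i = 0 ∨ i = 1 := by decide
    exact this e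
  rcases he with rfl | rfl
  · ext1 g
    show f g = 1 * f g * 1⁻¹
    rw [one_mul, inv_one, mul_one]
  · apply homA_ext'
    · show f (kap h (iA α ga)) = k * f (iA α ga) * k⁻¹
      rw [kap_apply, kap0_iA, iot_ga, eq_mul_inv_iff_mul_eq, map_inv, map_inv, ha]
    · show f (kap h (iA α gb)) = k * f (iA α gb) * k⁻¹
      rw [kap_apply, kap0_iA, iot_gb, eq_mul_inv_iff_mul_eq, map_inv, map_inv, hb]
    · show f (kap h (tA α)) = k * f (tA α) * k⁻¹
      rw [kap_apply, kap0_tA, eq_mul_inv_iff_mul_eq, map_mul, ht]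

/-- the universal property of `N2A h` -/
def liftK (hk : k * k = 1) (ha : k * f (iA α ga) = (f (iA α ga))⁻¹ * k)
    (hb : k * f (iA α gb) = (f (iA α gb))⁻¹ * k)
    (ht : k * f (tA α) = f (iA α c) * f (tA α) * k) : N2A h →* Q :=
  SemidirectProduct.lift f (kZ k hk) (liftK_aux h f k hk ha hb ht)

theorem liftK_iK (hk : k * k = 1) (ha : k * f (iA α ga) = (f (iA α ga))⁻¹ * k)
    (hb : k * f (iA α gb) = (f (iA α gb))⁻¹ * k)
    (ht : k * f (tA α) = f (iA α c) * f (tA α) * k) (g : GA α) :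
    liftK h f k hk ha hb ht (iK h g) = f g := SemidirectProduct.lift_inl _ _ _ g

theorem liftK_kk (hk : k * k = 1) (ha : k * f (iA α ga) = (f (iA α ga))⁻¹ * k)
    (hb : k * f (iA α gb) = (f (iA α gb))⁻¹ * k)
    (ht : k * f (tA α) = f (iA α c) * f (tA α) * k) :
    liftK h f k hk ha hb ht (kk h) = k := SemidirectProduct.lift_inr _ _ _ _

end liftK

/-! ### Matrices of determinant one -/

section mx

variable {R S : Type} [CommRing R] [CommRing S]

/-- the matrix `[[a, b], [c, d]]` of determinant one -/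
def mx (a b c d : R) (h : a * d - b * c = 1) : SL2 R :=
  ⟨!![a, b; c, d], by rw [Matrix.det_fin_two_of]; exact h⟩

theorem mx_00 (a b c d : R) (h : a * d - b * c = 1) : (mx a b c d h).val 0 0 = a := rfl
theorem mx_01 (a b c d : R) (h : a * d - b * c = 1) : (mx a b c d h).val 0 1 = b := rfl
theorem mx_10 (a b c d : R) (h : a * d - b * c = 1) : (mx a b c d h).val 1 0 = c := rfl
theorem mx_11 (a b c d : R) (h : a * d - b * c = 1) : (mx a b c d h).val 1 1 = d := rfl

/-- every matrix has this form -/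
theorem eq_mx (g : SL2 R) : g = mx (g.val 0 0) (g.val 0 1) (g.val 1 0) (g.val 1 1) (G.SL_det g) :=
  G.SL_ext rfl rfl rfl rfl

theorem mx_congr {a b c d a' b' c' d' : R} {h : a * d - b * c = 1} {h' : a' * d' - b' * c' = 1}
    (h1 : a = a') (h2 : b = b') (h3 : c = c') (h4 : d = d') : mx a b c d h = mx a' b' c' d' h' :=
  G.SL_ext h1 h2 h3 h4

theorem mx_mul (a b c d a' b' c' d' : R) (h : a * d - b * c = 1) (h' : a' * d' - b' * c' = 1) :
    mx a b c d h * mx a' b' c' d' h' = mx (a * a' + b * c') (a * b' + b * d') (c * a' + d * c')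
      (c * b' + d * d') (by linear_combination (a' * d' - b' * c') * h + h') := by
  apply G.SL_ext <;> rw [G.SL_mul] <;> rfl

theorem mx_one : (1 : SL2 R) = mx 1 0 0 1 (by ring) := by
  apply G.SL_ext <;> rfl

theorem mx_inv (a b c d : R) (h : a * d - b * c = 1) :
    (mx a b c d h)⁻¹ = mx d (-b) (-c) a (by linear_combination h) := by
  apply inv_eq_of_mul_eq_one_left
  rw [mx_mul, mx_one]
  apply mx_congr
  · linear_combination h
  · ring
  · ring
  · linear_combination h

theorem mx_neg (a b c d : R) (h : a * d - b * c = 1) :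
    -(mx a b c d h) = mx (-a) (-b) (-c) (-d) (by linear_combination h) := by
  apply G.SL_ext <;> rfl

theorem mx_map (f : R →+* S) (a b c d : R) (h : a * d - b * c = 1) :
    SLm f (mx a b c d h) = mx (f a) (f b) (f c) (f d) (by
      rw [← map_mul, ← map_mul, ← map_sub, h, map_one]) := by
  apply G.SL_ext <;> rfl

theorem mx_tr (a b c d : R) (h : a * d - b * c = 1) : tr (mx a b c d h) = a + d := tr_eq _

/-- `[[a, b], [c, d]] ↦ [[σ a, -σ b], [-σ c, σ d]]` -/
def tw (σ : R →+* R) : SL2 R →* SL2 R where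
  toFun g := mx (σ (g.val 0 0)) (-σ (g.val 0 1)) (-σ (g.val 1 0)) (σ (g.val 1 1)) (by
    have h := congrArg σ (G.SL_det g)
    rw [map_sub, map_mul, map_mul, map_one] at h
    linear_combination h)
  map_one' := by
    rw [mx_one]
    apply mx_congr
    · rw [mx_00, map_one]
    · rw [mx_01, map_zero, neg_zero]
    · rw [mx_10, map_zero, neg_zero]
    · rw [mx_11, map_one]
  map_mul' g h := by
    rw [mx_mul]
    apply mx_congr <;> simp only [G.SL_mul, map_add, map_mul] <;> ring

theorem tw_apply (σ : R →+* R) (g : SL2 R) :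
    tw σ g = mx (σ (g.val 0 0)) (-σ (g.val 0 1)) (-σ (g.val 1 0)) (σ (g.val 1 1)) (by
      have h := congrArg σ (G.SL_det g)
      rw [map_sub, map_mul, map_mul, map_one] at h
      linear_combination h) := rfl

theorem tw_neg (σ : R →+* R) (g : SL2 R) : tw σ (-g) = -tw σ g := by
  rw [tw_apply, tw_apply, mx_neg]
  apply mx_congr <;> simp only [G.SL_neg, map_neg]

theorem tw_mx (σ : R →+* R) (a b c d : R) (h : a * d - b * c = 1) : tw σ (mx a b c d h) =
    mx (σ a) (-σ b) (-σ c) (σ d) (by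
      have h := congrArg σ h
      rw [map_sub, map_mul, map_mul, map_one] at h
      linear_combination h) := rfl

theorem tr_tw (σ : R →+* R) (g : SL2 R) : tr (tw σ g) = σ (tr g) := by
  rw [tw_apply, mx_tr, tr_eq, map_add]

/-- the matrices with `tw σ g = ± g` -/
def NN (σ : R →+* R) : Subgroup (SL2 R) where
  carrier := {g | tw σ g = g ∨ tw σ g = -g}
  one_mem' := Or.inl (map_one _)
  mul_mem' := by
    rintro g h (hg | hg) (hh | hh)
    · left; rw [map_mul, hg, hh]
    · right; rw [map_mul, hg, hh, mul_neg]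
    · right; rw [map_mul, hg, hh, neg_mul]
    · left; rw [map_mul, hg, hh, neg_mul_neg]
  inv_mem' := by
    rintro g (hg | hg)
    · left; rw [map_inv, hg]
    · right
      rw [map_inv, hg]
      apply inv_eq_of_mul_eq_one_left
      rw [neg_mul_neg, inv_mul_cancel]

/-! ### The group `SL₂(R) / ±1` -/

/-- the subgroup `±1` -/
def pm (R : Type) [CommRing R] : Subgroup (SL2 R) where
  carrier := {g | g = 1 ∨ g = -1}
  one_mem' := Or.inl rfl
  mul_mem' := by
    rintro g h (rfl | rfl) (rfl | rfl)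
    · left; rw [one_mul]
    · right; rw [one_mul]
    · right; rw [mul_one]
    · left; rw [neg_mul_neg, one_mul]
  inv_mem' := by
    rintro g (rfl | rfl)
    · left; rw [inv_one]
    · right
      show (-1 : SL2 R)⁻¹ = -1
      apply inv_eq_of_mul_eq_one_left
      rw [neg_mul_neg, one_mul]

instance (R : Type) [CommRing R] : (pm R).Normal where
  conj_mem := by
    rintro g (rfl | rfl) h
    · left; rw [mul_one, mul_inv_cancel]
    · right; rw [mul_neg, mul_one, neg_mul, mul_inv_cancel]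

/-- the projection `SL₂(R) → SL₂(R) / ±1` -/
abbrev pj (R : Type) [CommRing R] : SL2 R →* SL2 R ⧸ pm R := QuotientGroup.mk' (pm R)

theorem pj_neg (g : SL2 R) : pj R (-g) = pj R g := by
  apply QuotientGroup.eq.2
  right
  rw [← neg_one_mul g, mul_inv_rev]
  have : (-1 : SL2 R)⁻¹ = -1 := by
    apply inv_eq_of_mul_eq_one_left
    rw [neg_mul_neg, one_mul]
  rw [this, mul_neg, mul_one, neg_mul, inv_mul_cancel]

theorem pj_eq_one {g : SL2 R} (h : pj R g = 1) : g = 1 ∨ g = -1 :=
  (QuotientGroup.eq_one_iff (N := pm R) g).1 h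

theorem pj_eq {g h : SL2 R} (hgh : pj R g = pj R h) : g = h ∨ g = -h := by
  have h1 : pj R (g * h⁻¹) = 1 := by rw [map_mul, map_inv, hgh, mul_inv_cancel]
  rcases pj_eq_one h1 with h2 | h2
  · left; exact mul_inv_eq_one.1 h2
  · right
    rw [mul_inv_eq_iff_eq_mul] at h2
    rw [h2, neg_one_mul]

/-- The homomorphism `N2A h → SL₂(R) / ±1` given by a representation `ρ` of `GA α` and a matrix `K` with
`K² = -1`, `K ρ(g) = ρ(κ g) K`. -/
def ThK (h : Kp α c) (ρ : GA α →* SL2 R) (K : SL2 R) (hk : K * K = -1)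
    (ha : K * ρ (iA α ga) = (ρ (iA α ga))⁻¹ * K) (hb : K * ρ (iA α gb) = (ρ (iA α gb))⁻¹ * K)
    (ht : K * ρ (tA α) = ρ (iA α c) * ρ (tA α) * K) : N2A h →* SL2 R ⧸ pm R :=
  liftK h ((pj R).comp ρ) (pj R K) (by rw [← map_mul, hk, pj_neg, map_one])
    (by
      show pj R K * pj R (ρ (iA α ga)) = (pj R (ρ (iA α ga)))⁻¹ * pj R K
      rw [← map_mul, ha, map_mul, map_inv])
    (by
      show pj R K * pj R (ρ (iA α gb)) = (pj R (ρ (iA α gb)))⁻¹ * pj R K
      rw [← map_mul, hb, map_mul, map_inv])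
    (by
      show pj R K * pj R (ρ (tA α)) = pj R (ρ (iA α c)) * pj R (ρ (tA α)) * pj R K
      rw [← map_mul, ht, map_mul, map_mul])

theorem ThK_iK (h : Kp α c) (ρ : GA α →* SL2 R) (K : SL2 R) (hk : K * K = -1)
    (ha : K * ρ (iA α ga) = (ρ (iA α ga))⁻¹ * K) (hb : K * ρ (iA α gb) = (ρ (iA α gb))⁻¹ * K)
    (ht : K * ρ (tA α) = ρ (iA α c) * ρ (tA α) * K) (g : GA α) :
    ThK h ρ K hk ha hb ht (iK h g) = pj R (ρ g) := liftK_iK _ _ _ _ _ _ _ _

theorem ThK_kk (h : Kp α c) (ρ : GA α →* SL2 R) (K : SL2 R) (hk : K * K = -1)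
    (ha : K * ρ (iA α ga) = (ρ (iA α ga))⁻¹ * K) (hb : K * ρ (iA α gb) = (ρ (iA α gb))⁻¹ * K)
    (ht : K * ρ (tA α) = ρ (iA α c) * ρ (tA α) * K) :
    ThK h ρ K hk ha hb ht (kk h) = pj R K := liftK_kk _ _ _ _ _ _ _

end mx

end Pool.Agent.F8.AB
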