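import Pool.Agent.Lib.MP_305fdd_al.F8.AB.DefsN2
import Pool.Agent.Lib.MP_305fdd_al.F8.NG.Cpl
import Pool.Agent.Lib.MP_305fdd_al.F8.DefsO

/-!
# MP_305fdd_al, arithmetic once-punctured torus bundles: interfaces of the blocks NT and NA

For a positive monodromy `a = NG.al (NG.Wd V1 b)`, `n ≥ 1`, an order `A` (a domain, free of finite rank over `ℤ`)
and a representation `ρ₀ : GA (a ^ n) → SL₂(A)` which is irreducible on `F`.
-/

set_option autoImplicit false

namespace Pool.Agent.F8.AB

open Pool.Agent.MP_305fdd_al Pool.Agent.Lib.MP_305fdd_al Pool.Agent.F2X Pool.Agent.F8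
  Pool.Agent.F8.HN

/-- The output of the transfer: `T` is the character of `s`, and its image in every finite ring is the
trace of the matched representation. -/
structure OutA {A : Type} [CommRing A] {α : MulAut F} (ρ₀ : GA α →* SL2 A) {Λ : Type} [Group Λ]
    (Φ : NatBij (GA α) Λ) (nL : Λ →* Multiplicative ℤ) (T : Λ → A)
    (s : Λ →* SL2 (AlgebraicClosure ℚ)) (j : A →+* AlgebraicClosure ℚ) : Prop where
  /-- `j` is an embedding -/
  inj : Function.Injective j
  /-- `T` is the character of `s` -/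
  char : ∀ g, tr (s g) = j (T g)
  /-- `s` is irreducible on the kernel of `nL` -/
  irr : Irr (s.comp nL.ker.subtype)
  /-- the images of `T` in finite rings -/
  red : ∀ (S : Type) [CommRing S] [Finite S] (h : A →+* S) (g : Λ),
    h (T g) = tr (Φ.toFun _ ((SLm h).comp ρ₀) g)

/-- BLOCK NT for positive monodromies. (The proof is that of `StmNT.lean`: replace the parameter `w` by a
homomorphism `j : A →+* K`, and `rN n w` by `(SLm j).comp ρ₀`; for `n = 1` use the six levels of `NG.NI1` instead of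
three levels.) -/
def S_NTG : Prop := ∀ (V1 : List Bool) (b : ℕ) (a : MulAut F), NG.al (NG.Wd V1 b) = a →
  ∀ n : ℕ, 1 ≤ n → ∀ (A : Type) [CommRing A] [IsDomain A] [Module.Free ℤ A] [Module.Finite ℤ A]
    (ρ₀ : GA (a ^ n) →* SL2 A), Irr (ρ₀.comp (iA (a ^ n))) →
  ∀ (Λ : Type) [Group Λ] [Group.FG Λ] (Φ : NatBij (GA (a ^ n)) Λ) (nL : Λ →* Multiplicative ℤ),
    Function.Surjective nL → CmG Φ (nA (a ^ n)) nL →
    ∃ (T : Λ → A) (s : Λ →* SL2 (AlgebraicClosure ℚ)) (j : A →+* AlgebraicClosure ℚ),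
      OutA ρ₀ Φ nL T s j

/-- BLOCK NA for hyperbolic matrices of determinant one. (The proof is that of `StmNA.lean`: the exceptional
values of `GA α` are the roots `θ ^ (± 1)` of `θ² = d θ - 1`, `d = trace (AM α) > 2`.) -/
def S_NAG : Prop := ∀ α : MulAut F, OV.Hyp (AM α) → OV.Reg α

end Pool.Agent.F8.AB
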