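import Pool.Agent.Lib.MP_305fdd_al.F8.AB.DefsN2

/-!
# MP_305fdd_al: from a homomorphism `Λ → N2A h` to a homomorphism `nL.ker → F`
-/

set_option autoImplicit false

namespace Pool.Agent.F8.AB

open Pool.Agent.MP_305fdd_al Pool.Agent.Lib.MP_305fdd_al Pool.Agent.F2X Pool.Agent.F8
  Pool.Agent.F8.HN

theorem iK_injective {α : MulAut F} {c : F} (h : Kp α c) : Function.Injective (iK h) :=
  SemidirectProduct.inl_injective

/-- a homomorphism `f : Λ → N2A h` which maps the kernel of `nL` to `F` -/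
theorem exF {α : MulAut F} {c : F} (hK : Kp α c) {Λ : Type} [Group Λ] (f : Λ →* N2A hK)
    (nL : Λ →* Multiplicative ℤ) (h1 : ∀ x : Λ, nL x = 1 → epK hK (f x) = 1)
    (h2 : ∀ x : Λ, nL x = 1 → nuK hK (f x) = 1) :
    ∃ h : nL.ker →* F, (∀ x : nL.ker, f x = iK hK (iA α (h x))) ∧
      ∀ (l : Λ) (x : nL.ker), h x = 1 → h (MulAut.conjNormal l x) = 1 := by
  have hex : ∀ x : nL.ker, ∃ w : F, f x = iK hK (iA α w) := fun x =>
    mem_F hK (f x) (h1 x x.2) (h2 x x.2)
  choose g hg using hex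
  have hinj : ∀ w w' : F, iK hK (iA α w) = iK hK (iA α w') → w = w' := fun w w' e =>
    iA_injective α (iK_injective hK e)
  refine ⟨⟨⟨g, ?_⟩, ?_⟩, hg, ?_⟩
  · apply hinj
    rw [← hg, map_one, map_one]
    exact map_one f
  · intro x y
    apply hinj
    rw [← hg, map_mul, map_mul, ← hg, ← hg, Subgroup.coe_mul, map_mul]
  · intro l x hx
    apply hinj
    show iK hK (iA α (g (MulAut.conjNormal l x))) = _
    have hx' : f x = 1 := by
      rw [hg x]
      show iK hK (iA α (g x)) = 1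
      have : g x = 1 := hx
      rw [this, map_one, map_one]
    rw [← hg, MulAut.conjNormal_apply, map_mul, map_mul, hx', mul_one, map_inv, mul_inv_cancel,
      map_one, map_one]

/-- if the range of `h` is cyclic, then the values commute -/
theorem cyc_comm {G : Type} [Group G] (h : G →* F) (hc : IsCyclic h.range) (x y : G) :
    h x * h y = h y * h x := by
  obtain ⟨⟨g, hg⟩, hgen⟩ := hc.exists_generator
  obtain ⟨i, hi⟩ := hgen ⟨h x, x, rfl⟩
  obtain ⟨k, hk⟩ := hgen ⟨h y, y, rfl⟩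
  have e1 : g ^ i = h x := congrArg Subtype.val hi
  have e2 : g ^ k = h y := congrArg Subtype.val hk
  rw [← e1, ← e2, ← zpow_add, ← zpow_add, add_comm]

end Pool.Agent.F8.AB
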