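import Pool.Agent.Lib.MP_305fdd_al.F8.StmHN
import Pool.Agent.Lib.MP_305fdd_al.F2X.Stm

/-!
# MP_305fdd_al: matrices of discriminant `8` and `12` and their powers are determined locally
-/

set_option autoImplicit false

namespace Pool.Agent.F8.AB

open Pool.Agent.MP_305fdd_al Pool.Agent.Lib.MP_305fdd_al Pool.Agent.F2X Pool.Agent.F8
  Pool.Agent.F8.HN

private theorem g_ext {a b c d a' b' c' d' : ℤ} (h1 : a = a') (h2 : b = b') (h3 : c = c')
    (h4 : d = d') : !![a, b; c, d] = !![a', b'; c', d'] := by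
  rw [h1, h2, h3, h4]

/-- `[[1, n], [0, 1]]` -/
private def g_T (n : ℤ) : GL (Fin 2) ℤ :=
  ⟨!![1, n; 0, 1], !![1, -n; 0, 1], by
    rw [Matrix.mul_fin_two, Matrix.one_fin_two]
    exact g_ext (by ring) (by ring) (by ring) (by ring), by
    rw [Matrix.mul_fin_two, Matrix.one_fin_two]
    exact g_ext (by ring) (by ring) (by ring) (by ring)⟩

/-- `[[0, -1], [1, 0]]` -/
private def g_S : GL (Fin 2) ℤ :=
  ⟨!![0, -1; 1, 0], !![0, 1; -1, 0], by
    rw [Matrix.mul_fin_two, Matrix.one_fin_two]
    exact g_ext (by ring) (by ring) (by ring) (by ring), by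
    rw [Matrix.mul_fin_two, Matrix.one_fin_two]
    exact g_ext (by ring) (by ring) (by ring) (by ring)⟩

/-- `diag(1, -1)` -/
private def g_D : GL (Fin 2) ℤ :=
  ⟨!![1, 0; 0, -1], !![1, 0; 0, -1], by
    rw [Matrix.mul_fin_two, Matrix.one_fin_two]
    exact g_ext (by ring) (by ring) (by ring) (by ring), by
    rw [Matrix.mul_fin_two, Matrix.one_fin_two]
    exact g_ext (by ring) (by ring) (by ring) (by ring)⟩

private theorem g_T_conj (n : ℤ) (A : GL (Fin 2) ℤ) (p q r s : ℤ) (hA : A.val = !![p, q; r, s]) :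
    (g_T n * A * (g_T n)⁻¹).val = !![p + n * r, -(n * (p + n * r)) + q + n * s; r, s - n * r] := by
  have h : (g_T n * A * (g_T n)⁻¹).val = !![1, n; 0, 1] * A.val * !![1, -n; 0, 1] := rfl
  rw [h, hA, Matrix.mul_fin_two, Matrix.mul_fin_two]
  exact g_ext (by ring) (by ring) (by ring) (by ring)

private theorem g_S_conj (A : GL (Fin 2) ℤ) (p q r s : ℤ) (hA : A.val = !![p, q; r, s]) :
    (g_S * A * g_S⁻¹).val = !![s, -r; -q, p] := by
  have h : (g_S * A * g_S⁻¹).val = !![0, -1; 1, 0] * A.val * !![0, 1; -1, 0] := rfl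
  rw [h, hA, Matrix.mul_fin_two, Matrix.mul_fin_two]
  exact g_ext (by ring) (by ring) (by ring) (by ring)

private theorem g_D_conj (A : GL (Fin 2) ℤ) (p q r s : ℤ) (hA : A.val = !![p, q; r, s]) :
    (g_D * A * g_D⁻¹).val = !![p, -q; -r, s] := by
  have h : (g_D * A * g_D⁻¹).val = !![1, 0; 0, -1] * A.val * !![1, 0; 0, -1] := rfl
  rw [h, hA, Matrix.mul_fin_two, Matrix.mul_fin_two]
  exact g_ext (by ring) (by ring) (by ring) (by ring)

private theorem g_tr (B Y A : GL (Fin 2) ℤ)
    (h : ∃ X : GL (Fin 2) ℤ, X * (Y * A * Y⁻¹) = B * X) :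
    ∃ X : GL (Fin 2) ℤ, X * A = B * X := by
  obtain ⟨X, hX⟩ := h
  refine ⟨X * Y, ?_⟩
  calc X * Y * A = X * (Y * A * Y⁻¹) * Y := by group
    _ = B * X * Y := by rw [hX]
    _ = _ := by group

/-- matrices with the same trace `d` and determinant `ε` are conjugate if the discriminant is `8`
or `12` -/
theorem cjG (d ε : ℤ) (hε : ε = 1 ∨ ε = -1) (hD : d * d - 4 * ε = 8 ∨ d * d - 4 * ε = 12)
    (B : GL (Fin 2) ℤ) (hB : B.val = !![d, 1; -ε, 0]) (A : GL (Fin 2) ℤ)
    (htr : A.val.trace = d) (hdet : A.val.det = ε) : ∃ X : GL (Fin 2) ℤ, X * A = B * X := by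
  have key : ∀ (N : ℕ) (A : GL (Fin 2) ℤ) (p q r s : ℤ), A.val = !![p, q; r, s] → p + s = d →
      p * s - q * r = ε → r.natAbs = N → ∃ X : GL (Fin 2) ℤ, X * A = B * X := by
    intro N
    induction N using Nat.strong_induction_on with
    | _ N ih =>
      intro A p q r s hA ht hd hN
      have hdisc0 : (p - s) ^ 2 + 4 * (q * r) = d * d - 4 * ε := by
        linear_combination (p + s + d) * ht - 4 * hd
      have hr0 : r ≠ 0 := by
        rintro rfl
        have h1 : (p - s) * (p - s) = d * d - 4 * ε := by linear_combination hdisc0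
        have h2 : p - s ≤ 3 := by rcases hD with h | h <;> nlinarith
        have h3 : -3 ≤ p - s := by rcases hD with h | h <;> nlinarith
        obtain ⟨x, hx⟩ : ∃ x : ℤ, x = p - s := ⟨_, rfl⟩
        rw [← hx] at h1 h2 h3
        interval_cases x <;> omega
      have hone : ∀ (A : GL (Fin 2) ℤ) (p q s : ℤ), A.val = !![p, q; -ε, s] → p + s = d →
          p * s - q * (-ε) = ε → ∃ X : GL (Fin 2) ℤ, X * A = B * X := by
        intro A p q s hA ht hd
        apply g_tr B (g_T (-ε * (d - p)))
        refine ⟨1, ?_⟩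
        rw [one_mul, mul_one]
        apply Units.ext
        rw [g_T_conj _ A p q (-ε) s hA, hB]
        have hs : s = d - p := by linarith
        subst hs
        rcases hε with rfl | rfl
        · exact g_ext (by ring) (by linear_combination hd) (by ring) (by ring)
        · exact g_ext (by ring) (by linear_combination -hd) (by ring) (by ring)
      by_cases hr1 : r = -ε
      · subst hr1
        exact hone A p q s hA ht hd
      by_cases hr2 : r = ε
      · subst hr2
        apply g_tr B g_D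
        refine hone _ p (-q) s ?_ ht (by linear_combination hd)
        rw [g_D_conj A p q r s hA]
      -- the general case
      obtain ⟨n, hn⟩ : ∃ n : ℤ, |p - s + 2 * n * r| ≤ |r| := by
        have hpos : 0 < 2 * |r| := by
          have := abs_pos.2 hr0
          linarith
        have e0 := Int.emod_nonneg (p - s + |r|) hpos.ne'
        have e1 := Int.emod_lt_of_pos (p - s + |r|) hpos
        have e2 := Int.emod_add_mul_ediv (p - s + |r|) (2 * |r|)
        rcases abs_choice r with h | h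
        · refine ⟨-((p - s + |r|) / (2 * |r|)), ?_⟩
          rw [abs_le]
          rw [h] at e0 e1 e2 ⊢
          constructor <;> linarith
        · refine ⟨(p - s + |r|) / (2 * |r|), ?_⟩
          rw [abs_le]
          rw [h] at e0 e1 e2 ⊢
          constructor <;> linarith
      apply g_tr B (g_T n)
      have hA1 := g_T_conj n A p q r s hA
      set p1 := p + n * r with hp1
      set q1 := -(n * p1) + q + n * s with hq1
      set s1 := s - n * r with hs1
      have ht1 : p1 + s1 = d := by rw [hp1, hs1]; linarith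
      have hd1 : p1 * s1 - q1 * r = ε := by
        rw [hq1, hs1, hp1]
        linear_combination hd
      have hn1 : |p1 - s1| ≤ |r| := by
        have : p1 - s1 = p - s + 2 * n * r := by rw [hp1, hs1]; ring
        rw [this]
        exact hn
      have hdisc : (p1 - s1) ^ 2 + 4 * (q1 * r) = d * d - 4 * ε := by
        linear_combination (p1 + s1 + d) * ht1 - 4 * hd1
      have hsq : (p1 - s1) ^ 2 ≤ r ^ 2 := sq_le_sq.2 hn1
      have hr3 : 2 ≤ |r| := by
        have h1 := abs_pos.2 hr0
        by_contra hlt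
        have h2 : |r| = 1 := by omega
        rcases abs_eq (by norm_num : (0 : ℤ) ≤ 1) |>.1 h2 with h | h <;>
          rcases hε with h3 | h3 <;> subst h3 <;> omega
      apply g_tr B g_S
      have hA2 := g_S_conj _ p1 q1 r s1 hA1
      refine ih (-q1).natAbs ?_ _ s1 (-r) (-q1) p1 hA2 (by linarith) (by linarith) rfl
      -- `|q1| < |r|`
      rw [← hN]
      have hq : |q1| < |r| := by
        have h4 : 4 * |q1| * |r| < |r| * |r| + 12 + 1 := by
          have h5 : 4 * (q1 * r) = d * d - 4 * ε - (p1 - s1) ^ 2 := by linarith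
          have h6 : |4 * (q1 * r)| = 4 * |q1| * |r| := by
            rw [abs_mul, abs_mul]
            norm_num
            ring
          rw [← h6, h5, abs_lt]
          have h7 : r ^ 2 = |r| * |r| := by rw [abs_mul_abs_self]; ring
          rcases hD with h8 | h8 <;> rw [h8] <;>
            constructor <;> nlinarith [sq_nonneg (p1 - s1)]
        have h4' : 4 * |q1| * |r| ≤ |r| * |r| ∨ 4 * |q1| * |r| ≤ 12 := by
          have h5 : 4 * (q1 * r) = d * d - 4 * ε - (p1 - s1) ^ 2 := by linarith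
          have h6 : |4 * (q1 * r)| = 4 * |q1| * |r| := by
            rw [abs_mul, abs_mul]
            norm_num
            ring
          have h7 : r ^ 2 = |r| * |r| := by rw [abs_mul_abs_self]; ring
          rw [← h6, h5]
          rcases le_total 0 (d * d - 4 * ε - (p1 - s1) ^ 2) with h9 | h9
          · right
            rw [abs_of_nonneg h9]
            rcases hD with h8 | h8 <;> rw [h8] <;> nlinarith [sq_nonneg (p1 - s1)]
          · left
            rw [abs_of_nonpos h9]
            rcases hD with h8 | h8 <;> rw [h8] <;> nlinarith [sq_nonneg (p1 - s1)]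
        by_contra hge
        have hge' : |r| ≤ |q1| := not_lt.1 hge
        have h8 : |r| * |r| ≤ |q1| * |r| := mul_le_mul_of_nonneg_right hge' (abs_nonneg r)
        rcases h4' with h9 | h9 <;> nlinarith
      have e1 : ((-q1).natAbs : ℤ) = |q1| := by
        rw [Int.natCast_natAbs, abs_neg]
      have e2 : (r.natAbs : ℤ) = |r| := Int.natCast_natAbs r
      omega
  rw [Matrix.trace_fin_two] at htr
  rw [Matrix.det_fin_two] at hdet
  exact key _ A _ _ _ _ (Matrix.eta_fin_two A.val) htr hdet rfl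

/-- the local-global principle for `B = m C - g`, `C` of trace `d` and determinant `ε` -/
theorem LocM (h2 : S_tr) (d ε : ℤ) (hε : ε = 1 ∨ ε = -1)
    (hD : d * d - 4 * ε = 8 ∨ d * d - 4 * ε = 12) (C₀ : GL (Fin 2) ℤ) (htr0 : C₀.val.trace = d)
    (hdet0 : C₀.val.det = ε) (B : GL (Fin 2) ℤ) (m : ℕ) (hm0 : 0 < m) (g : ℤ)
    (hB : B.val = (m : ℤ) • C₀.val - g • 1) (A : GL (Fin 2) ℤ)
    (hA : ∀ k : ℕ, 0 < k → ∃ X : GL (Fin 2) (ZMod k), X * red k B = red k A * X) :
    ∃ X : GL (Fin 2) ℤ, X * A = B * X := by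
  have hmz0 : (m : ℤ) ≠ 0 := by exact_mod_cast hm0.ne'
  obtain ⟨htr, hdet⟩ := h2 _ _ hA
  rw [Matrix.trace_fin_two] at htr0
  rw [Matrix.det_fin_two] at hdet0
  have b00 : B.val 0 0 = m * C₀.val 0 0 - g := by
    rw [hB, Matrix.sub_apply, Matrix.smul_apply, Matrix.smul_apply, Matrix.one_apply_eq, smul_eq_mul,
      smul_eq_mul, mul_one]
  have b01 : B.val 0 1 = m * C₀.val 0 1 := by
    rw [hB, Matrix.sub_apply, Matrix.smul_apply, Matrix.smul_apply, Matrix.one_apply_ne (by decide), smul_eq_mul,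
      smul_eq_mul, mul_zero, sub_zero]
  have b10 : B.val 1 0 = m * C₀.val 1 0 := by
    rw [hB, Matrix.sub_apply, Matrix.smul_apply, Matrix.smul_apply, Matrix.one_apply_ne (by decide), smul_eq_mul,
      smul_eq_mul, mul_zero, sub_zero]
  have b11 : B.val 1 1 = m * C₀.val 1 1 - g := by
    rw [hB, Matrix.sub_apply, Matrix.smul_apply, Matrix.smul_apply, Matrix.one_apply_eq, smul_eq_mul,
      smul_eq_mul, mul_one]
  rw [Matrix.trace_fin_two, Matrix.trace_fin_two, b00, b11] at htr
  rw [Matrix.det_fin_two, Matrix.det_fin_two, b00, b01, b10, b11] at hdet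
  -- modulo `m` the matrix is a scalar
  obtain ⟨X, hX⟩ := hA m hm0
  have hsc : (red m B).val = (-(g : ZMod m)) • 1 := by
    show B.val.map (Int.castRingHom (ZMod m)) = _
    rw [hB]
    ext i j
    rw [Matrix.map_apply, Matrix.sub_apply, Matrix.smul_apply, Matrix.smul_apply,
      Matrix.smul_apply]
    by_cases hij : i = j
    · subst hij
      simp
    · simp [Matrix.one_apply, hij]
  have hAsc : (red m A).val = (-(g : ZMod m)) • 1 := by
    have h3 : X.val * (red m B).val = (red m A).val * X.val := congrArg Units.val hX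
    rw [hsc, mul_smul_comm, mul_one] at h3
    have h4 : (red m A).val = (red m A).val * X.val * X⁻¹.val := by
      rw [mul_assoc, Units.mul_inv, mul_one]
    rw [h4, ← h3, smul_mul_assoc, Units.mul_inv]
  have hent : ∀ i j, (m : ℤ) ∣ A.val i j + g * (1 : Matrix (Fin 2) (Fin 2) ℤ) i j := by
    intro i j
    have h3 := congrFun (congrFun hAsc i) j
    have h4 : (red m A).val i j = ((A.val i j : ℤ) : ZMod m) := rfl
    rw [h4, Matrix.smul_apply] at h3
    rw [← ZMod.intCast_zmod_eq_zero_iff_dvd]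
    push_cast
    rw [h3]
    by_cases hij : i = j
    · subst hij
      simp
    · simp [Matrix.one_apply, hij]
  choose C hC using hent
  have c00 : A.val 0 0 = m * C 0 0 - g := by
    have := hC 0 0
    simp only [Matrix.one_apply_eq, mul_one] at this
    linarith
  have c11 : A.val 1 1 = m * C 1 1 - g := by
    have := hC 1 1
    simp only [Matrix.one_apply_eq, mul_one] at this
    linarith
  have c01 : A.val 0 1 = m * C 0 1 := by
    have := hC 0 1
    rw [Matrix.one_apply_ne (by decide), mul_zero, add_zero] at this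
    exact this
  have c10 : A.val 1 0 = m * C 1 0 := by
    have := hC 1 0
    rw [Matrix.one_apply_ne (by decide), mul_zero, add_zero] at this
    exact this
  have htr3 : C 0 0 + C 1 1 = d := by
    rw [c00, c11] at htr
    apply mul_left_cancel₀ hmz0
    linear_combination (m : ℤ) * htr0 - htr
  have hdet1 : C 0 0 * C 1 1 - C 0 1 * C 1 0 = ε := by
    rw [c00, c11, c01, c10] at hdet
    apply mul_left_cancel₀ (mul_ne_zero hmz0 hmz0)
    linear_combination (-1 : ℤ) * hdet + (m : ℤ) * g * htr3 - (m : ℤ) * g * htr0 +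
      (m : ℤ) * m * hdet0
  let M : Matrix (Fin 2) (Fin 2) ℤ := !![C 0 0, C 0 1; C 1 0, C 1 1]
  have hMdet : M.det = ε := by
    rw [Matrix.det_fin_two_of]
    exact hdet1
  have hMu : IsUnit M.det := by
    rw [hMdet]
    rcases hε with h | h <;> rw [h]
    · exact isUnit_one
    · exact isUnit_one.neg
  have hNdet : (!![d, 1; -ε, 0] : Matrix (Fin 2) (Fin 2) ℤ).det = ε := by
    rw [Matrix.det_fin_two_of]; ring
  have hNu : IsUnit (!![d, 1; -ε, 0] : Matrix (Fin 2) (Fin 2) ℤ).det := by
    rw [hNdet]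
    rcases hε with h | h <;> rw [h]
    · exact isUnit_one
    · exact isUnit_one.neg
  obtain ⟨Y, hY⟩ := cjG d ε hε hD (Matrix.nonsingInvUnit _ hNu) rfl (Matrix.nonsingInvUnit M hMu)
    (by
      show M.trace = d
      rw [Matrix.trace_fin_two_of]
      exact htr3) hMdet
  obtain ⟨Z, hZ⟩ := cjG d ε hε hD (Matrix.nonsingInvUnit _ hNu) rfl C₀
    (by rw [Matrix.trace_fin_two]; exact htr0) (by rw [Matrix.det_fin_two]; exact hdet0)
  set N := Matrix.nonsingInvUnit _ hNu with hN
  set M' := Matrix.nonsingInvUnit M hMu with hM'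
  have hW : (Z⁻¹ * Y) * M' = C₀ * (Z⁻¹ * Y) := by
    have e1 : C₀ = Z⁻¹ * N * Z := by rw [mul_assoc, ← hZ, inv_mul_cancel_left]
    rw [e1, mul_assoc, hY]
    group
  refine ⟨Z⁻¹ * Y, ?_⟩
  apply Units.ext
  have hY' : (Z⁻¹ * Y).val * M = C₀.val * (Z⁻¹ * Y).val := congrArg Units.val hW
  have eA : A.val = (m : ℤ) • M - g • 1 := by
    ext i j
    rw [Matrix.sub_apply, Matrix.smul_apply, Matrix.smul_apply, Matrix.one_apply]
    fin_cases i <;> fin_cases j
    · show A.val 0 0 = _
      rw [c00]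
      simp [M]
    · show A.val 0 1 = _
      rw [c01]
      simp [M]
    · show A.val 1 0 = _
      rw [c10]
      simp [M]
    · show A.val 1 1 = _
      rw [c11]
      simp [M]
  show (Z⁻¹ * Y).val * A.val = B.val * (Z⁻¹ * Y).val
  rw [eA, hB, mul_sub, sub_mul, mul_smul_comm, hY', smul_mul_assoc, mul_smul_comm, smul_mul_assoc,
    mul_one, one_mul]

/-- the sequence of the coefficients of the powers -/
def fq (d ε : ℤ) : ℕ → ℤ
  | 0 => 0
  | 1 => 1
  | (k + 2) => d * fq d ε (k + 1) - ε * fq d ε k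

theorem fq_pos (d ε : ℤ) (hd : 2 ≤ d) (hε : ε = 1 ∨ ε = -1) (k : ℕ) :
    1 ≤ fq d ε (k + 1) ∧ fq d ε k ≤ fq d ε (k + 1) ∧ 0 ≤ fq d ε k := by
  induction k with
  | zero => refine ⟨?_, ?_, ?_⟩ <;> simp [fq]
  | succ k ih =>
    obtain ⟨h1, h2, h3⟩ := ih
    have h : fq d ε (k + 1 + 1) = d * fq d ε (k + 1) - ε * fq d ε k := rfl
    rw [h]
    rcases hε with rfl | rfl <;> refine ⟨?_, ?_, ?_⟩ <;> nlinarith

/-- the powers of a matrix -/
theorem pow_fq (C : GL (Fin 2) ℤ) (k : ℕ) : (C ^ (k + 1)).val =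
    fq C.val.trace C.val.det (k + 1) • C.val - (C.val.det * fq C.val.trace C.val.det k) • 1 := by
  induction k with
  | zero => simp [fq]
  | succ k ih =>
    have h : fq C.val.trace C.val.det (k + 1 + 1) = C.val.trace * fq C.val.trace C.val.det (k + 1) -
      C.val.det * fq C.val.trace C.val.det k := rfl
    have hCH : C.val * C.val = C.val.trace • C.val - C.val.det • 1 := by
      ext i j
      rw [Matrix.trace_fin_two, Matrix.det_fin_two, Matrix.mul_apply, Fin.sum_univ_two,
        Matrix.sub_apply, Matrix.smul_apply, Matrix.smul_apply, smul_eq_mul, smul_eq_mul]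
      fin_cases i <;> fin_cases j
      · show C.val 0 0 * C.val 0 0 + C.val 0 1 * C.val 1 0 = (C.val 0 0 + C.val 1 1) * C.val 0 0 -
          (C.val 0 0 * C.val 1 1 - C.val 0 1 * C.val 1 0) * (1 : Matrix (Fin 2) (Fin 2) ℤ) 0 0
        rw [Matrix.one_apply_eq]; ring
      · show C.val 0 0 * C.val 0 1 + C.val 0 1 * C.val 1 1 = (C.val 0 0 + C.val 1 1) * C.val 0 1 -
          (C.val 0 0 * C.val 1 1 - C.val 0 1 * C.val 1 0) * (1 : Matrix (Fin 2) (Fin 2) ℤ) 0 1
        rw [Matrix.one_apply_ne (by decide)]; ring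
      · show C.val 1 0 * C.val 0 0 + C.val 1 1 * C.val 1 0 = (C.val 0 0 + C.val 1 1) * C.val 1 0 -
          (C.val 0 0 * C.val 1 1 - C.val 0 1 * C.val 1 0) * (1 : Matrix (Fin 2) (Fin 2) ℤ) 1 0
        rw [Matrix.one_apply_ne (by decide)]; ring
      · show C.val 1 0 * C.val 0 1 + C.val 1 1 * C.val 1 1 = (C.val 0 0 + C.val 1 1) * C.val 1 1 -
          (C.val 0 0 * C.val 1 1 - C.val 0 1 * C.val 1 0) * (1 : Matrix (Fin 2) (Fin 2) ℤ) 1 1
        rw [Matrix.one_apply_eq]; ring
    rw [pow_succ, Units.val_mul, ih, h, sub_mul, smul_mul_assoc, hCH, smul_mul_assoc, one_mul,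
      smul_sub, smul_smul, smul_smul]
    ext i j
    simp only [Matrix.sub_apply, Matrix.smul_apply, smul_eq_mul]
    ring

/-- powers of matrices of discriminant `8` or `12` and trace at least `2` are determined locally -/
theorem loc_pow (h2 : S_tr) (C : GL (Fin 2) ℤ) (hd : 2 ≤ C.val.trace)
    (hD : C.val.trace * C.val.trace - 4 * C.val.det = 8 ∨
      C.val.trace * C.val.trace - 4 * C.val.det = 12) (n : ℕ) (hn : 1 ≤ n) (α : MulAut F)
    (hα : AM α = C ^ n) : Loc α := by
  intro A hA
  have hε : C.val.det = 1 ∨ C.val.det = -1 := by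
    have hu : IsUnit C.val.det := (Matrix.isUnit_iff_isUnit_det _).1 C.isUnit
    exact Int.isUnit_iff.1 hu
  obtain ⟨k, rfl⟩ : ∃ k, n = k + 1 := ⟨n - 1, by omega⟩
  obtain ⟨hp, -, -⟩ := fq_pos _ _ hd hε k
  obtain ⟨m, hm⟩ := Int.eq_ofNat_of_zero_le (by omega : 0 ≤ fq C.val.trace C.val.det (k + 1))
  refine LocM h2 _ _ hε hD C rfl rfl (AM α) m (by omega)
    (C.val.det * fq C.val.trace C.val.det k) ?_ A hA
  rw [hα, pow_fq, hm]

end Pool.Agent.F8.AB
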