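import Pool.Agent.Lib.MP_305fdd_al.F8.AB.Over
import Pool.Agent.Lib.MP_305fdd_al.F8.AB.DefsN2

/-!
# MP_305fdd_al: the groups `GA (α ^ n)` as Kleinian groups

`ρ : GA α → SL₂(A)` is a representation, `GA α → SL₂(A) / ±1` is injective, `j : A → ℂ` is an embedding. `KP n` is the subgroup of
`PSL₂(ℂ)` generated by the images of `u`, `v` and `t ^ n`; it is isomorphic to `GA (α ^ n)` for `n ≥ 1`.
-/

set_option autoImplicit false

namespace Pool.Agent.F8.AB

open Pool.Agent.MP_305fdd_al Pool.Agent.Lib.MP_305fdd_al Pool.Agent.F2X Pool.Agent.F8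
  Pool.Agent.F8.HN Pool.Agent.F8.OV

section mod

variable {A : Type} [CommRing A] {j : A →+* ℂ}

/-- the kernel of the projection -/
theorem pc_one (hj : Function.Injective j) {g : SL2 A} (h : pc (SLm j g) = 1) : pj A g = 1 := by
  have h1 : SLm j g ∈ Subgroup.center (SL2 ℂ) := (QuotientGroup.eq_one_iff _).1 h
  rw [Matrix.SpecialLinearGroup.mem_center_iff] at h1
  obtain ⟨r, hr, hs⟩ := h1
  have hr' : r = 1 ∨ r = -1 := by
    rw [Fintype.card_fin] at hr
    exact mul_self_eq_one_iff.1 (by rw [← sq]; exact hr)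
  have hij : ∀ i k, j (g.val i k) = (Matrix.scalar (Fin 2) r) i k := by
    intro i k
    rw [hs]; rfl
  apply (QuotientGroup.eq_one_iff (N := pm A) g).2
  rcases hr' with rfl | rfl
  · left
    apply Matrix.SpecialLinearGroup.ext
    intro i k
    apply hj
    rw [hij, Matrix.SpecialLinearGroup.coe_one]
    fin_cases i <;> fin_cases k <;> simp
  · right
    apply Matrix.SpecialLinearGroup.ext
    intro i k
    apply hj
    rw [hij]
    fin_cases i <;> fin_cases k <;> simp

variable {α : MulAut F} (j) (ρ : GA α →* SL2 A)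

/-- the representation in `PSL₂(ℂ)` -/
noncomputable def rP : GA α →* PC := pc.comp ((SLm j).comp ρ)

theorem rP_injective (hj : Function.Injective j) (hρ : ∀ g, pj A (ρ g) = 1 → g = 1) :
    Function.Injective (rP j ρ) := by
  rw [injective_iff_map_eq_one]
  intro g hg
  exact hρ g (pc_one hj hg)

/-- the group of the `n`-fold cyclic cover -/
noncomputable def KP (n : ℕ) : Subgroup PC :=
  Subgroup.closure {rP j ρ (iA α ga), rP j ρ (iA α gb), rP j ρ (tA α) ^ n}

theorem KP_range (n : ℕ) : ((rP j ρ).comp (incA α n)).range = KP j ρ n := by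
  apply le_antisymm
  · rintro _ ⟨g, rfl⟩
    have hF : ∀ w : F, ((rP j ρ).comp (incA α n)) (iA (α ^ n) w) ∈ KP j ρ n := by
      intro w
      have h1 : (⊤ : Subgroup F) ≤
          (KP j ρ n).comap (((rP j ρ).comp (incA α n)).comp (iA (α ^ n))) := by
        rw [← FreeGroup.closure_range_of, Subgroup.closure_le]
        rintro _ ⟨i, rfl⟩
        fin_cases i
        · show rP j ρ (incA α n (iA (α ^ n) ga)) ∈ KP j ρ n
          rw [incA_iA]; exact Subgroup.subset_closure (by simp)
        · show rP j ρ (incA α n (iA (α ^ n) gb)) ∈ KP j ρ n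
          rw [incA_iA]; exact Subgroup.subset_closure (by simp)
      exact h1 (Subgroup.mem_top w)
    obtain ⟨w, k, rfl⟩ := GA_cases _ g
    rw [map_mul, map_zpow]
    refine mul_mem (hF w) (zpow_mem ?_ k)
    show rP j ρ (incA α n (tA (α ^ n))) ∈ KP j ρ n
    rw [incA_tA, map_pow]; exact Subgroup.subset_closure (by simp)
  · unfold KP
    rw [Subgroup.closure_le]
    rintro _ (rfl | rfl | rfl)
    · refine ⟨iA (α ^ n) ga, ?_⟩
      rw [MonoidHom.comp_apply, incA_iA]
    · refine ⟨iA (α ^ n) gb, ?_⟩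
      rw [MonoidHom.comp_apply, incA_iA]
    · refine ⟨tA (α ^ n), ?_⟩
      rw [MonoidHom.comp_apply, incA_tA, map_pow]

/-- `KP n` is isomorphic to `GA (α ^ n)` -/
noncomputable def kpE (hj : Function.Injective j) (hρ : ∀ g, pj A (ρ g) = 1 → g = 1) (n : ℕ)
    (hn : 0 < n) : GA (α ^ n) ≃* KP j ρ n :=
  (MonoidHom.ofInjective (f := (rP j ρ).comp (incA α n))
    ((rP_injective j ρ hj hρ).comp (incA_injective α n hn))).trans
    (MulEquiv.subgroupCongr (KP_range j ρ n))

theorem KP_iA (n : ℕ) (w : F) : rP j ρ (iA α w) ∈ KP j ρ n := by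
  rw [← KP_range]
  exact ⟨iA (α ^ n) w, by rw [MonoidHom.comp_apply, incA_iA]⟩

theorem KP_tA (n : ℕ) : rP j ρ (tA α) ^ n ∈ KP j ρ n := Subgroup.subset_closure (by simp)

end mod

/-! ### Subgroups of `PSL₂(ℂ)` without finite normal subgroups -/

/-- an upper triangular matrix -/
def up (a : ℂ) : SL2 ℂ := mx 1 a 0 1 (by ring)
/-- a lower triangular matrix -/
def lo (b : ℂ) : SL2 ℂ := mx 1 0 b 1 (by ring)

theorem up_pow (a : ℂ) (n : ℕ) : up a ^ n = up (n * a) := by
  induction n with
  | zero =>
    rw [pow_zero]; unfold up; rw [mx_one]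
    apply mx_congr <;> simp
  | succ n ih =>
    rw [pow_succ, ih]; unfold up; rw [mx_mul]
    apply mx_congr <;> push_cast <;> ring

theorem lo_pow (a : ℂ) (n : ℕ) : lo a ^ n = lo (n * a) := by
  induction n with
  | zero =>
    rw [pow_zero]; unfold lo; rw [mx_one]
    apply mx_congr <;> simp
  | succ n ih =>
    rw [pow_succ, ih]; unfold lo; rw [mx_mul]
    apply mx_congr <;> push_cast <;> ring

/-- an element which commutes with two opposite parabolic elements is trivial -/
theorem pc_central' {x : PC} {a b : ℂ} (ha : a ≠ 0) (hb : b ≠ 0)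
    (h1 : x * pc (up a) = pc (up a) * x) (h2 : x * pc (lo b) = pc (lo b) * x) : x = 1 := by
  obtain ⟨x, rfl⟩ := QuotientGroup.mk'_surjective _ x
  have hx : x.val = !![x.val 0 0, x.val 0 1; x.val 1 0, x.val 1 1] := Matrix.eta_fin_two _
  have hd := G.SL_det x
  have hu : (up a).val = !![1, a; 0, 1] := rfl
  have hl : (lo b).val = !![1, 0; b, 1] := rfl
  have two : ∀ z : ℂ, z = -z → z = 0 := fun z hz => by
    have : (2 : ℂ) * z = 0 := by linear_combination hz
    simpa using this
  have e1 : x.val 1 0 = 0 ∧ x.val 0 0 = x.val 1 1 := by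
    rcases pc_comm h1 with h | h
    · rw [hu, mul_lit, lit_mul] at h
      have h00 := congrFun (congrFun h 0) 0
      have h01 := congrFun (congrFun h 0) 1
      simp only [Matrix.of_apply, Matrix.cons_val', Matrix.cons_val_zero, Matrix.cons_val_one,
        Matrix.cons_val_fin_one] at h00 h01
      have h10 : x.val 1 0 = 0 := by
        have : a * x.val 1 0 = 0 := by linear_combination -h00
        exact (mul_eq_zero.1 this).resolve_left ha
      refine ⟨h10, ?_⟩
      have : a * (x.val 0 0 - x.val 1 1) = 0 := by linear_combination h01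
      exact sub_eq_zero.1 ((mul_eq_zero.1 this).resolve_left ha)
    · exfalso
      rw [hu, mul_lit, lit_mul] at h
      have h00 := congrFun (congrFun h 0) 0
      have h10 := congrFun (congrFun h 1) 0
      simp only [Matrix.neg_apply, Matrix.of_apply, Matrix.cons_val', Matrix.cons_val_zero,
        Matrix.cons_val_one, Matrix.cons_val_fin_one] at h00 h10
      have e10 : x.val 1 0 = 0 := two _ (by linear_combination h10)
      have e00 : x.val 0 0 = 0 := two _ (by rw [e10] at h00; linear_combination h00)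
      rw [e10, e00] at hd
      simp at hd
  have e2 : x.val 0 1 = 0 := by
    rcases pc_comm h2 with h | h
    · rw [hl, mul_lit, lit_mul] at h
      have h00 := congrFun (congrFun h 0) 0
      simp only [Matrix.of_apply, Matrix.cons_val', Matrix.cons_val_zero, Matrix.cons_val_one,
        Matrix.cons_val_fin_one] at h00
      have : b * x.val 0 1 = 0 := by linear_combination h00
      exact (mul_eq_zero.1 this).resolve_left hb
    · exfalso
      rw [hl, mul_lit, lit_mul] at h
      have h11 := congrFun (congrFun h 1) 1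
      have h01 := congrFun (congrFun h 0) 1
      simp only [Matrix.neg_apply, Matrix.of_apply, Matrix.cons_val', Matrix.cons_val_zero,
        Matrix.cons_val_one, Matrix.cons_val_fin_one] at h11 h01
      have e01 : x.val 0 1 = 0 := two _ (by linear_combination h01)
      have e11 : x.val 1 1 = 0 := two _ (by rw [e01] at h11; linear_combination h11)
      rw [e01, e11] at hd
      simp at hd
  rw [← map_one (QuotientGroup.mk' (Subgroup.center (SL2 ℂ)))]
  apply QuotientGroup.eq.2
  rw [mul_one]
  apply Subgroup.inv_mem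
  rw [Matrix.SpecialLinearGroup.mem_center_iff]
  refine ⟨x.val 0 0, ?_, ?_⟩
  · rw [Fintype.card_fin]
    rw [e1.1, ← e1.2] at hd
    rw [sq]
    linear_combination hd
  · ext i k
    fin_cases i <;> fin_cases k
    · simp
    · simp [e2]
    · simp [e1.1]
    · simp [e1.2]

/-- a subgroup of `PSL₂(ℂ)` which contains two opposite parabolic elements has no non-trivial
finite normal subgroup -/
theorem no_finite_normal' (Γ : Subgroup PC) {a b : ℂ} (ha' : a ≠ 0) (hb' : b ≠ 0)
    (ha : pc (up a) ∈ Γ) (hb : pc (lo b) ∈ Γ) (K : Subgroup Γ) (hK : K.Normal)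
    (hf : Finite K) : K = ⊥ := by
  rw [eq_bot_iff]
  intro x hx
  have key : ∀ g : Γ, ∃ r : ℕ, 0 < r ∧ x * g ^ r = g ^ r * x := by
    intro g
    let f : Γ →* MulAut K := MulAut.conjNormal
    have hfin : Finite (MulAut K) := inferInstance
    have h1 : f g ^ (Nat.card (MulAut K)) = 1 := pow_card_eq_one'
    refine ⟨Nat.card (MulAut K), Nat.card_pos, ?_⟩
    rw [← map_pow] at h1
    have h2 := congrArg (fun s : MulAut K => ((s ⟨x, hx⟩ : K) : Γ)) h1
    have h3 : g ^ (Nat.card (MulAut K)) * x * (g ^ (Nat.card (MulAut K)))⁻¹ = x := h2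
    rw [mul_inv_eq_iff_eq_mul] at h3
    exact h3.symm
  obtain ⟨r, hr, h1⟩ := key ⟨_, ha⟩
  obtain ⟨s, hs, h2⟩ := key ⟨_, hb⟩
  have h1' := congrArg (fun y : Γ => (y : PC)) h1
  have h2' := congrArg (fun y : Γ => (y : PC)) h2
  simp only [Subgroup.coe_mul, Subgroup.coe_pow, ← map_pow, up_pow, lo_pow] at h1' h2'
  rw [Subgroup.mem_bot]
  exact Subtype.ext (pc_central' (mul_ne_zero (by exact_mod_cast hr.ne') ha')
    (mul_ne_zero (by exact_mod_cast hs.ne') hb') h1' h2')

end Pool.Agent.F8.AB
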