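import Pool.Agent.Lib.MP_305fdd_al.F8.ModelsM

/-!
# MP_305fdd_al: overgroups of the groups `F ⋊_β ℤ`, where the matrix of `β ^ k` is conjugate to that of `α ^ n`
-/

set_option autoImplicit false

namespace Pool.Agent.F8.AB

open Pool.Agent.MP_305fdd_al Pool.Agent.Lib.MP_305fdd_al Pool.Agent.F2X Pool.Agent.F8
  Pool.Agent.F8.HN Pool.Agent.F8.OV

/-- the conclusion of `S_OV` -/
def Ovr (α : MulAut F) : Prop := ∀ (Γ : Type) [Group Γ] (N : Subgroup Γ) (n : ℕ), 0 < n →
  N.Normal → N.FiniteIndex → Nonempty (N ≃* GA (α ^ n)) →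
  (∀ K : Subgroup Γ, K.Normal → Finite K → K = ⊥) → ProfinitelyRigid Γ

/-- `subA β k` is invariant under all endomorphisms of `GA β`, if the matrix of `β ^ k` is that of `α ^ n` -/
theorem subA_char (α β : MulAut F) (n k : ℕ) (hα : Hyp (AM (α ^ n)))
    (hb : AM β ^ k = AM α ^ n) (φ : GA β →* GA β) (x : GA β) (hx : x ∈ subA β k) :
    φ x ∈ subA β k := by
  have hβ : Hyp (AM (β ^ k)) := by rw [map_pow, hb, ← map_pow]; exact hα
  have h1 : ∀ w : F, nA β (φ (iA β w)) = 1 := by
    intro w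
    have := p_b1 (β ^ k) hβ ((nA β).comp (φ.comp (incA β k))) w
    rw [← incA_iA β k w]
    exact this
  rw [← subA_eq] at hx
  obtain ⟨g, rfl⟩ := hx
  obtain ⟨w, j, rfl⟩ := GA_cases _ g
  show redZ k (nA β (φ (incA β k (iA (β ^ k) w * tA (β ^ k) ^ j)))) = 1
  rw [map_mul, map_zpow, incA_iA, incA_tA, map_mul, map_mul, h1, one_mul, map_zpow, map_pow,
    map_zpow, map_pow, ← zpow_natCast, ← zpow_mul, mul_comm, zpow_mul, zpow_natCast, redZ_pow_self]

/-- overgroups of `GA β`, if the matrix of `β ^ k` is that of `α ^ n` -/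
theorem over_eq (α : MulAut F) (hα : ∀ n : ℕ, 0 < n → Hyp (AM (α ^ n))) (hO : Ovr α)
    (β : MulAut F) (n k : ℕ) (hn : 0 < n) (hk : 0 < k) (hb : AM β ^ k = AM α ^ n) (Γ : Type)
    [Group Γ] (N : Subgroup Γ) (hN : N.Normal) (hi : N.FiniteIndex) (e : N ≃* GA β)
    (hK : ∀ K : Subgroup Γ, K.Normal → Finite K → K = ⊥) : ProfinitelyRigid Γ := by
  let M : Subgroup N := (subA β k).comap e.toMonoidHom
  have hM : ∀ x : N, x ∈ M ↔ e x ∈ subA β k := fun x => Iff.rfl
  have hfi := subA_fi β k hk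
  have hMi : M.FiniteIndex := by
    constructor
    rw [Subgroup.index_comap_of_surjective _ e.surjective]
    exact hfi.index_ne_zero
  -- the image in `Γ`
  have hnorm : (M.map N.subtype).Normal := by
    constructor
    rintro _ ⟨x, hx, rfl⟩ g
    refine ⟨MulAut.conjNormal g x, ?_, by rw [Subgroup.coe_subtype, MulAut.conjNormal_apply]⟩
    have h := subA_char α β n k (hα n hn) hb
      ((e.toMonoidHom.comp (MulAut.conjNormal g).toMonoidHom).comp e.symm.toMonoidHom) (e x) hx
    show e (MulAut.conjNormal g x) ∈ subA β k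
    have e1 : ((e.toMonoidHom.comp (MulAut.conjNormal g).toMonoidHom).comp
      e.symm.toMonoidHom) (e x) = e (MulAut.conjNormal g x) := by
      show e (MulAut.conjNormal g (e.symm (e x))) = _
      rw [MulEquiv.symm_apply_apply]
    rw [← e1]; exact h
  have hfin : (M.map N.subtype).FiniteIndex := by
    constructor
    have h1 : (M.map N.subtype).relIndex N * N.index = (M.map N.subtype).index :=
      Subgroup.relIndex_mul_index (Subgroup.map_subtype_le M)
    rw [← h1]
    apply mul_ne_zero _ hi.index_ne_zero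
    have h2 : (M.map N.subtype).subgroupOf N = M :=
      Subgroup.comap_map_eq_self_of_injective N.subtype_injective M
    unfold Subgroup.relIndex
    rw [h2]
    exact hMi.index_ne_zero
  have hiso : Nonempty (M.map N.subtype ≃* GA (α ^ n)) := by
    obtain ⟨e2⟩ := GA_contains all_out α β n k hk hb
    have e3 : M ≃* subA β k := e.subgroupMap M |>.trans (MulEquiv.subgroupCongr (by
      apply Subgroup.map_comap_eq_self_of_surjective
      exact e.surjective))
    exact ⟨((M.equivMapOfInjective N.subtype N.subtype_injective).symm.trans e3).trans e2⟩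
  exact hO Γ (M.map N.subtype) n hn hnorm hfin hiso hK

/-- overgroups of `GA β`, if the matrix of `β ^ k` is conjugate to that of `α ^ n` -/
theorem over_gen (α : MulAut F) (hα : ∀ n : ℕ, 0 < n → Hyp (AM (α ^ n))) (hO : Ovr α)
    (β : MulAut F) (n k : ℕ) (hn : 0 < n) (hk : 0 < k) (X : GL (Fin 2) ℤ)
    (hb : X * AM β ^ k * X⁻¹ = AM α ^ n) (Γ : Type)
    [Group Γ] (N : Subgroup Γ) (hN : N.Normal) (hi : N.FiniteIndex) (e : N ≃* GA β)
    (hK : ∀ K : Subgroup Γ, K.Normal → Finite K → K = ⊥) : ProfinitelyRigid Γ := by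
  obtain ⟨γ, hγ⟩ := p_sur X⁻¹
  obtain ⟨e2⟩ := GA_conj γ β
  refine over_eq α hα hO (γ⁻¹ * β * γ) n k hn hk ?_ Γ N hN hi (e.trans e2.symm) hK
  rw [map_mul, map_mul, map_inv, hγ, ← hb, inv_inv]
  have h : ∀ m : ℕ, (X * AM β * X⁻¹) ^ m = X * AM β ^ m * X⁻¹ := by
    intro m
    induction m with
    | zero => simp
    | succ m ih => rw [pow_succ, ih, pow_succ]; group
  exact h k

end Pool.Agent.F8.AB
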